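import Pool.Agent.helper62.RS.SpecS

/-!
# RS, row SEQ: the Laplace operator is invariant
-/

set_option autoImplicit false

open scoped MatrixGroups ContDiff Topology UpperHalfPlane
open UpperHalfPlane MeasureTheory Filter Set

namespace Pool.Agent.RS

theorem SEQ_det (g : SL(2, ℝ)) : g 0 0 * g 1 1 - g 0 1 * g 1 0 = 1 := by
  have h := g.det_coe
  rwa [Matrix.det_fin_two] at h

/-- the denominator -/
noncomputable def SEQ_e (g : SL(2, ℝ)) (w : ℂ) : ℂ := ((g 1 0 : ℝ) : ℂ) * w + ((g 1 1 : ℝ) : ℂ)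

/-- the Moebius map -/
noncomputable def SEQ_m (g : SL(2, ℝ)) (w : ℂ) : ℂ := (((g 0 0 : ℝ) : ℂ) * w + ((g 0 1 : ℝ) : ℂ)) / SEQ_e g w

theorem SEQ_den (g : SL(2, ℝ)) (w : ℂ) (hw : 0 < w.im) : SEQ_e g w ≠ 0 := by
  intro h
  have h1 := congrArg Complex.im h
  have h2 := congrArg Complex.re h
  unfold SEQ_e at h1 h2
  simp only [Complex.add_im, Complex.mul_im, Complex.ofReal_re, Complex.ofReal_im, zero_mul, add_zero,
    Complex.zero_im, Complex.add_re, Complex.mul_re, sub_zero, Complex.zero_re] at h1 h2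
  have h3 : g 1 0 = 0 := by
    rcases mul_eq_zero.1 h1 with h | h
    · exact h
    · exact absurd h hw.ne'
  have h4 := SEQ_det g
  rw [h3] at h2 h4
  rw [zero_mul, zero_add] at h2
  rw [h2] at h4
  norm_num at h4

theorem SEQ_coe (g : SL(2, ℝ)) (z : ℍ) : ((g • z : ℍ) : ℂ) = SEQ_m g z := by
  rw [coe_specialLinearGroup_apply]
  rfl

theorem SEQ_pos (g : SL(2, ℝ)) (w : ℂ) (hw : 0 < w.im) : 0 < (SEQ_m g w).im := by
  have h := (g • (⟨w, hw⟩ : ℍ)).im_pos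
  have h1 := SEQ_coe g ⟨w, hw⟩
  have h2 : (SEQ_m g w).im = (g • (⟨w, hw⟩ : ℍ)).im := by
    have h3 : SEQ_m g w = SEQ_m g ((⟨w, hw⟩ : ℍ) : ℂ) := rfl
    rw [h3, ← h1]
    rfl
  rw [h2]
  exact h

theorem SEQ_onC (φ : ℍ → ℂ) (g : SL(2, ℝ)) (w : ℂ) (hw : 0 < w.im) :
    QU.onC (fun z => φ (g • z)) w = QU.onC φ (SEQ_m g w) := by
  unfold QU.onC
  have h1 : ofComplex w = ⟨w, hw⟩ := ofComplex_apply_of_im_pos hw
  have h2 : SEQ_m g w = ((g • (⟨w, hw⟩ : ℍ) : ℍ) : ℂ) := (SEQ_coe g ⟨w, hw⟩).symm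
  rw [h1, h2, ofComplex_apply]

theorem SEQ_dl (a b w : ℂ) : HasDerivAt (fun w : ℂ => a * w + b) a w := by
  have h := ((hasDerivAt_id w).const_mul a).add_const b
  rw [mul_one] at h
  exact h

theorem SEQ_d1 (g : SL(2, ℝ)) (w : ℂ) (hw : 0 < w.im) : HasDerivAt (SEQ_m g) (1 / SEQ_e g w ^ 2) w := by
  have hden := SEQ_den g w hw
  have h := (SEQ_dl ((g 0 0 : ℝ) : ℂ) ((g 0 1 : ℝ) : ℂ) w).div (SEQ_dl ((g 1 0 : ℝ) : ℂ) ((g 1 1 : ℝ) : ℂ) w) hden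
  refine h.congr_deriv ?_
  have hd : ((g 0 0 : ℝ) : ℂ) * ((g 1 1 : ℝ) : ℂ) - ((g 0 1 : ℝ) : ℂ) * ((g 1 0 : ℝ) : ℂ) = 1 := by
    exact_mod_cast SEQ_det g
  have e : ((g 0 0 : ℝ) : ℂ) * (((g 1 0 : ℝ) : ℂ) * w + ((g 1 1 : ℝ) : ℂ)) -
      (((g 0 0 : ℝ) : ℂ) * w + ((g 0 1 : ℝ) : ℂ)) * ((g 1 0 : ℝ) : ℂ) = 1 := by
    linear_combination hd
  rw [e]
  rfl

theorem SEQ_d2 (g : SL(2, ℝ)) (w : ℂ) (hw : 0 < w.im) :
    ∃ m : ℂ, HasDerivAt (fun w => 1 / SEQ_e g w ^ 2) m w := by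
  have hden := SEQ_den g w hw
  have h1 : HasDerivAt (SEQ_e g) ((g 1 0 : ℝ) : ℂ) w := SEQ_dl _ _ w
  exact ⟨_, (hasDerivAt_const w (1 : ℂ)).div (h1.pow 2) (pow_ne_zero 2 hden)⟩

theorem SEQ_bil (B : ℂ →L[ℝ] ℂ →L[ℝ] ℂ) (μ : ℂ) :
    B (μ * 1) (μ * 1) + B (μ * Complex.I) (μ * Complex.I) =
      ((Complex.normSq μ : ℝ) : ℂ) * (B 1 1 + B Complex.I Complex.I) := by
  have e1 : μ * 1 = μ.re • (1 : ℂ) + μ.im • Complex.I := by
    apply Complex.ext <;> simp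
  have e2 : μ * Complex.I = (-μ.im) • (1 : ℂ) + μ.re • Complex.I := by
    apply Complex.ext <;> simp
  rw [e1, e2]
  simp only [map_add, map_smul, ContinuousLinearMap.add_apply, ContinuousLinearMap.smul_apply]
  simp only [Complex.real_smul, Complex.normSq_apply]
  push_cast
  ring

theorem SEQ_mul (u : ℂ) : u • (1 : ℂ →L[ℝ] ℂ) = ContinuousLinearMap.mul ℝ ℂ u := by
  ext v
  simp

theorem SEQ_im (g : SL(2, ℝ)) (w : ℂ) : (SEQ_m g w).im = w.im / Complex.normSq (SEQ_e g w) := by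
  unfold SEQ_m
  rw [Complex.div_im, ← sub_div]
  have h : (((g 0 0 : ℝ) : ℂ) * w + ((g 0 1 : ℝ) : ℂ)).im * (SEQ_e g w).re -
      (((g 0 0 : ℝ) : ℂ) * w + ((g 0 1 : ℝ) : ℂ)).re * (SEQ_e g w).im = w.im := by
    unfold SEQ_e
    simp only [Complex.add_im, Complex.mul_im, Complex.ofReal_re, Complex.ofReal_im, zero_mul, add_zero,
      Complex.add_re, Complex.mul_re, sub_zero]
    linear_combination w.im * SEQ_det g
  rw [h]

/-- first derivative of the composition -/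
theorem SEQ_f1 (φ : ℍ → ℂ) (g : SL(2, ℝ)) (hφ : QU.CD 2 φ) (w : ℂ) (hw : 0 < w.im) :
    HasFDerivAt (QU.onC (fun z => φ (g • z)))
      ((fderiv ℝ (QU.onC φ) (SEQ_m g w)).comp (ContinuousLinearMap.mul ℝ ℂ (1 / SEQ_e g w ^ 2))) w := by
  have hU : IsOpen {w : ℂ | 0 < w.im} := isOpen_lt continuous_const Complex.continuous_im
  have hF : ContDiffAt ℝ 2 (QU.onC φ) (SEQ_m g w) := hφ.contDiffAt (hU.mem_nhds (SEQ_pos g w hw))
  have h1 : HasFDerivAt (QU.onC φ) (fderiv ℝ (QU.onC φ) (SEQ_m g w)) (SEQ_m g w) :=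
    (hF.differentiableAt (by norm_num)).hasFDerivAt
  have h2 := h1.comp w (SEQ_d1 g w hw).complexToReal_fderiv
  rw [SEQ_mul] at h2
  refine h2.congr_of_eventuallyEq ?_
  filter_upwards [hU.mem_nhds hw] with w' hw'
  exact SEQ_onC φ g w' hw'

theorem SEQ_lap (φ : ℍ → ℂ) (g : SL(2, ℝ)) (hφ : QU.CD 2 φ) (z : ℍ) :
    QU.lap (fun z => φ (g • z)) z = QU.lap φ (g • z) := by
  have hU : IsOpen {w : ℂ | 0 < w.im} := isOpen_lt continuous_const Complex.continuous_im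
  have hz : 0 < (z : ℂ).im := z.im_pos
  set F := QU.onC φ with hFdef
  set h := QU.onC (fun z => φ (g • z)) with hh
  have hF : ContDiffAt ℝ 2 F (SEQ_m g z) := hφ.contDiffAt (hU.mem_nhds (SEQ_pos g z hz))
  obtain ⟨m2, hm2⟩ := SEQ_d2 g z hz
  -- the derivative near z
  have hev : fderiv ℝ h =ᶠ[𝓝 (z : ℂ)] fun w => (fderiv ℝ F (SEQ_m g w)).comp (ContinuousLinearMap.mul ℝ ℂ (1 / SEQ_e g w ^ 2)) := by
    filter_upwards [hU.mem_nhds hz] with w hw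
    exact (SEQ_f1 φ g hφ w hw).fderiv
  have hc : HasFDerivAt (fun w => fderiv ℝ F (SEQ_m g w))
      ((fderiv ℝ (fderiv ℝ F) (SEQ_m g z)).comp ((1 / SEQ_e g z ^ 2) • (1 : ℂ →L[ℝ] ℂ))) (z : ℂ) := by
    have h1 : ContDiffAt ℝ 1 (fderiv ℝ F) (SEQ_m g z) := hF.fderiv_right (by norm_num)
    exact ((h1.differentiableAt (by norm_num)).hasFDerivAt).comp (z : ℂ) (SEQ_d1 g z hz).complexToReal_fderiv
  have hd : HasFDerivAt (fun w => ContinuousLinearMap.mul ℝ ℂ (1 / SEQ_e g w ^ 2))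
      ((ContinuousLinearMap.mul ℝ ℂ).comp (m2 • (1 : ℂ →L[ℝ] ℂ))) (z : ℂ) :=
    (ContinuousLinearMap.mul ℝ ℂ).hasFDerivAt.comp (z : ℂ) hm2.complexToReal_fderiv
  have hcd := hc.clm_comp hd
  have h2 : ∀ v : ℂ, fderiv ℝ (fderiv ℝ h) z v v = fderiv ℝ F (SEQ_m g z) (m2 * v * v) +
      fderiv ℝ (fderiv ℝ F) (SEQ_m g z) (1 / SEQ_e g z ^ 2 * v) (1 / SEQ_e g z ^ 2 * v) := by
    intro v
    rw [hev.fderiv_eq, hcd.fderiv]
    simp
  unfold QU.lap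
  rw [h2 1, h2 Complex.I]
  have h3 : m2 * Complex.I * Complex.I = -(m2 * 1 * 1) := by
    linear_combination m2 * Complex.I_mul_I
  rw [h3, map_neg]
  have h4 := SEQ_bil (fderiv ℝ (fderiv ℝ F) (SEQ_m g z)) (1 / SEQ_e g z ^ 2)
  have h5 : (g • z).im ^ 2 = z.im ^ 2 * Complex.normSq (1 / SEQ_e g z ^ 2) := by
    have h7 : (g • z).im = z.im / Complex.normSq (SEQ_e g z) := by
      have h8 := SEQ_im g z
      rw [← SEQ_coe g z] at h8
      exact h8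
    rw [h7, map_div₀, map_one, map_pow, div_pow]
    ring
  have h6 : ((g • z : ℍ) : ℂ) = SEQ_m g z := SEQ_coe g z
  rw [h5, h6]
  simp only [Complex.real_smul]
  push_cast
  linear_combination (-(((z.im : ℝ) : ℂ) ^ 2)) * h4

theorem SEQ_cd (φ : ℍ → ℂ) (g : SL(2, ℝ)) (n : WithTop ℕ∞) (hφ : QU.CD n φ) : QU.CD n (fun z => φ (g • z)) := by
  unfold QU.CD at hφ ⊢
  have hm : ContDiffOn ℝ n (SEQ_m g) {w : ℂ | 0 < w.im} := by
    have h1 : ContDiffOn ℂ n (SEQ_m g) {w : ℂ | 0 < w.im} := by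
      refine ContDiffOn.div ?_ ?_ ?_
      · exact ((contDiff_const.mul contDiff_id).add contDiff_const).contDiffOn
      · exact ((contDiff_const.mul contDiff_id).add contDiff_const).contDiffOn
      · intro w hw
        exact SEQ_den g w hw
    exact h1.restrict_scalars ℝ
  have h2 : ContDiffOn ℝ n (QU.onC φ ∘ SEQ_m g) {w : ℂ | 0 < w.im} :=
    hφ.comp hm fun w hw => SEQ_pos g w hw
  exact h2.congr fun w hw => SEQ_onC φ g w hw

theorem SEQ : SEQ_stmt := fun φ g => ⟨fun n h => SEQ_cd φ g n h, fun h z => SEQ_lap φ g h z⟩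

end Pool.Agent.RS
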